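import Pool.Agent.Helper89.Vol.Goals2
import Pool.Agent.Helper52.Vol.FIN

/-!
# Project V36, packet FIN2: the sixteen sign patterns
-/

set_option autoImplicit false

namespace Pool.Agent.Helper52.Vol.PkFIN2

open Pool.Agent.Helper89.Vol Pool.Agent.Helper86.Poly Pool.Agent.Helper52.Vol

theorem thm (h1 : G_D1) (h4 : G_D4) (hH : G_HAD) : G_FIN2 := by
  intro y hy c s ⟨hc, hs, _, _⟩
  obtain ⟨ha, -, -⟩ := h1 y
  obtain ⟨d23, d24, d25, d34, d35, d45⟩ := h4 y
  have hT := PkFIN.T_le hH hy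
  set b23 := br (y 0) (y 1) (y 2) (y 3) with hb23
  set b24 := br (y 0) (y 1) (y 2) (y 4) with hb24
  set b25 := br (y 0) (y 1) (y 2) (y 5) with hb25
  set b34 := br (y 0) (y 1) (y 3) (y 4) with hb34
  set b35 := br (y 0) (y 1) (y 3) (y 5) with hb35
  set b45 := br (y 0) (y 1) (y 4) (y 5) with hb45
  have e32 : Dt y 3 2 = -b45 := by rw [ha, d23]
  have e42 : Dt y 4 2 = b35 := by rw [ha, d24, neg_neg]
  have e52 : Dt y 5 2 = -b34 := by rw [ha, d25]
  have e43 : Dt y 4 3 = -b25 := by rw [ha, d34]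
  have e53 : Dt y 5 3 = b24 := by rw [ha, d35, neg_neg]
  have e54 : Dt y 5 4 = -b23 := by rw [ha, d45]
  have p1 := neg_abs_le (b23 + b34 + b45)
  have p2 := le_abs_self (b23 + b34 + b45)
  -- the determinants
  have i1 : b23 = PkFIN.T y 1 0 2 0 3 2 := by
    rw [hb23, br, PkFIN.T, Matrix.det_fin_three, Matrix.det_fin_three]
    simp only [Matrix.of_apply, Matrix.cons_val', Matrix.cons_val_zero, Matrix.cons_val_one,
      Matrix.cons_val, Matrix.cons_val_fin_one]
    ring
  have i2 : b25 = PkFIN.T y 1 0 2 0 5 2 := by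
    rw [hb25, br, PkFIN.T, Matrix.det_fin_three, Matrix.det_fin_three]
    simp only [Matrix.of_apply, Matrix.cons_val', Matrix.cons_val_zero, Matrix.cons_val_one,
      Matrix.cons_val, Matrix.cons_val_fin_one]
    ring
  have i3 : b45 = PkFIN.T y 1 0 4 0 5 4 := by
    rw [hb45, br, PkFIN.T, Matrix.det_fin_three, Matrix.det_fin_three]
    simp only [Matrix.of_apply, Matrix.cons_val', Matrix.cons_val_zero, Matrix.cons_val_one,
      Matrix.cons_val, Matrix.cons_val_fin_one]
    ring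
  have i4 : b24 - b25 = PkFIN.T y 1 0 2 0 4 5 := by
    rw [hb24, hb25, br, br, PkFIN.T, Matrix.det_fin_three, Matrix.det_fin_three, Matrix.det_fin_three]
    simp only [Matrix.of_apply, Matrix.cons_val', Matrix.cons_val_zero, Matrix.cons_val_one,
      Matrix.cons_val, Matrix.cons_val_fin_one]
    ring
  have i5 : b24 - b23 = PkFIN.T y 1 0 2 0 4 3 := by
    rw [hb24, hb23, br, br, PkFIN.T, Matrix.det_fin_three, Matrix.det_fin_three, Matrix.det_fin_three]
    simp only [Matrix.of_apply, Matrix.cons_val', Matrix.cons_val_zero, Matrix.cons_val_one,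
      Matrix.cons_val, Matrix.cons_val_fin_one]
    ring
  have i6 : b45 - b35 + b34 = PkFIN.T y 1 0 4 3 5 3 := by
    rw [hb45, hb35, hb34, br, br, br, PkFIN.T, Matrix.det_fin_three, Matrix.det_fin_three,
      Matrix.det_fin_three, Matrix.det_fin_three]
    simp only [Matrix.of_apply, Matrix.cons_val', Matrix.cons_val_zero, Matrix.cons_val_one,
      Matrix.cons_val, Matrix.cons_val_fin_one]
    ring
  have i7 : b35 - b45 = PkFIN.T y 1 0 3 4 5 0 := by
    rw [hb35, hb45, br, br, PkFIN.T, Matrix.det_fin_three, Matrix.det_fin_three, Matrix.det_fin_three]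
    simp only [Matrix.of_apply, Matrix.cons_val', Matrix.cons_val_zero, Matrix.cons_val_one,
      Matrix.cons_val, Matrix.cons_val_fin_one]
    ring
  have i8 : b35 - b34 - b25 + b24 = PkFIN.T y 1 0 3 2 5 4 := by
    rw [hb35, hb34, hb25, hb24, br, br, br, br, PkFIN.T, Matrix.det_fin_three, Matrix.det_fin_three,
      Matrix.det_fin_three, Matrix.det_fin_three, Matrix.det_fin_three]
    simp only [Matrix.of_apply, Matrix.cons_val', Matrix.cons_val_zero, Matrix.cons_val_one,
      Matrix.cons_val, Matrix.cons_val_fin_one]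
    ring
  have i9 : b35 - b25 = PkFIN.T y 1 0 3 2 5 0 := by
    rw [hb35, hb25, br, br, PkFIN.T, Matrix.det_fin_three, Matrix.det_fin_three, Matrix.det_fin_three]
    simp only [Matrix.of_apply, Matrix.cons_val', Matrix.cons_val_zero, Matrix.cons_val_one,
      Matrix.cons_val, Matrix.cons_val_fin_one]
    ring
  have i10 : b34 - b24 + b23 = PkFIN.T y 1 0 3 2 4 2 := by
    rw [hb34, hb24, hb23, br, br, br, PkFIN.T, Matrix.det_fin_three, Matrix.det_fin_three,
      Matrix.det_fin_three, Matrix.det_fin_three]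
    simp only [Matrix.of_apply, Matrix.cons_val', Matrix.cons_val_zero, Matrix.cons_val_one,
      Matrix.cons_val, Matrix.cons_val_fin_one]
    ring
  have j1 := hT 1 0 2 0 3 2
  have j2 := hT 1 0 2 0 5 2
  have j3 := hT 1 0 4 0 5 4
  have j4 := hT 1 0 2 0 4 5
  have j5 := hT 1 0 2 0 4 3
  have j6 := hT 1 0 4 3 5 3
  have j7 := hT 1 0 3 4 5 0
  have j8 := hT 1 0 3 2 5 4
  have j9 := hT 1 0 3 2 5 0
  have j10 := hT 1 0 3 2 4 2
  rw [← i1] at j1
  rw [← i2] at j2
  rw [← i3] at j3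
  rw [← i4] at j4
  rw [← i5] at j5
  rw [← i6] at j6
  rw [← i7] at j7
  rw [← i8] at j8
  rw [← i9] at j9
  rw [← i10] at j10
  have hsum : (∑ m, ∑ n, if n < m ∧ 2 ≤ n ∧ s m = 1 ∧ s n = -1 then c * Dt y m n else 0) =
      (if s 3 = 1 ∧ s 2 = -1 then c * Dt y 3 2 else 0) +
      ((if s 4 = 1 ∧ s 2 = -1 then c * Dt y 4 2 else 0) +
        (if s 4 = 1 ∧ s 3 = -1 then c * Dt y 4 3 else 0)) +
      ((if s 5 = 1 ∧ s 2 = -1 then c * Dt y 5 2 else 0) +
        (if s 5 = 1 ∧ s 3 = -1 then c * Dt y 5 3 else 0) +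
        (if s 5 = 1 ∧ s 4 = -1 then c * Dt y 5 4 else 0)) := by
    simp only [Fin.sum_univ_six]
    have f1 : ∀ m n : Fin 6, ¬ (n < m ∧ 2 ≤ n) →
        (if n < m ∧ 2 ≤ n ∧ s m = 1 ∧ s n = -1 then c * Dt y m n else 0) = 0 := fun m n h =>
      if_neg fun h' => h ⟨h'.1, h'.2.1⟩
    have f2 : ∀ m n : Fin 6, (n < m ∧ 2 ≤ n) →
        (if n < m ∧ 2 ≤ n ∧ s m = 1 ∧ s n = -1 then c * Dt y m n else 0) =
          if s m = 1 ∧ s n = -1 then c * Dt y m n else 0 := fun m n h => by
      simp [h.1, h.2]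
    rw [f1 0 0 (by decide), f1 0 1 (by decide), f1 0 2 (by decide), f1 0 3 (by decide),
      f1 0 4 (by decide), f1 0 5 (by decide), f1 1 0 (by decide), f1 1 1 (by decide),
      f1 1 2 (by decide), f1 1 3 (by decide), f1 1 4 (by decide), f1 1 5 (by decide),
      f1 2 0 (by decide), f1 2 1 (by decide), f1 2 2 (by decide), f1 2 3 (by decide),
      f1 2 4 (by decide), f1 2 5 (by decide), f1 3 0 (by decide), f1 3 1 (by decide),
      f2 3 2 (by decide), f1 3 3 (by decide), f1 3 4 (by decide), f1 3 5 (by decide),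
      f1 4 0 (by decide), f1 4 1 (by decide), f2 4 2 (by decide), f2 4 3 (by decide),
      f1 4 4 (by decide), f1 4 5 (by decide), f1 5 0 (by decide), f1 5 1 (by decide),
      f2 5 2 (by decide), f2 5 3 (by decide), f2 5 4 (by decide), f1 5 5 (by decide)]
    ring
  unfold Pool.Agent.Helper89.Vol.T Pool.Agent.Helper89.Vol.path
  rw [hsum, e32, e42, e43, e52, e53, e54, ← hb23, ← hb34, ← hb45]
  have n1 : ¬ ((1 : ℝ) = -1) := by norm_num
  have n2 : ¬ ((-1 : ℝ) = 1) := by norm_num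
  rcases hc with rfl | rfl <;> rcases hs 2 with k2 | k2 <;> rcases hs 3 with k3 | k3 <;>
    rcases hs 4 with k4 | k4 <;> rcases hs 5 with k5 | k5 <;>
    simp only [k2, k3, k4, k5, n1, n2, and_true, and_false, if_true, if_false] <;>
    first
      | (left
         linarith [j1.1, j1.2, j2.1, j2.2, j3.1, j3.2, j4.1, j4.2, j5.1, j5.2, j6.1, j6.2, j7.1,
          j7.2, j8.1, j8.2, j9.1, j9.2, j10.1, j10.2])
      | (right
         linarith [p1, p2])

end Pool.Agent.Helper52.Vol.PkFIN2
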